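import Pool.Agent.Lib.MP_2fb14c_an.Bessel

/-! Unit vectors with Bessel bound two (in particular unit norm 2-tight frames), real or complex,
split into three Riesz basic sequences with universal bounds. -/

namespace Pool.Agent.Results.MP_2fb14c_an.ThreeRiesz

universe u

/-- `(v j)` is a Riesz basic sequence with Riesz bounds `A`, `B`. -/
def IsRieszBasic (𝕜 : Type) [RCLike 𝕜] {H : Type u} [NormedAddCommGroup H]
    [InnerProductSpace 𝕜 H] {J : Type} [Fintype J] (A B : ℝ) (v : J → H) : Prop :=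
  ∀ a : J → 𝕜, A * ∑ j, ‖a j‖ ^ 2 ≤ ‖∑ j, a j • v j‖ ^ 2 ∧
    ‖∑ j, a j • v j‖ ^ 2 ≤ B * ∑ j, ‖a j‖ ^ 2

open Pool.Agent.Lib.MP_2fb14c_an in
theorem result (𝕜 : Type) [RCLike 𝕜] (H : Type u) [NormedAddCommGroup H] [InnerProductSpace 𝕜 H]
    (M : ℕ) (u : Fin M → H) (hunit : ∀ i, ‖u i‖ = 1)
    (hbessel : ∀ x : H, ∑ i, ‖(inner 𝕜 x (u i) : 𝕜)‖ ^ 2 ≤ 2 * ‖x‖ ^ 2) :
    ∃ I : Fin 3 → Finset (Fin M),
      (∀ k l, k ≠ l → Disjoint (I k) (I l)) ∧ (∀ i, ∃ k, i ∈ I k) ∧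
      (3 ≤ M → ∀ k, (I k).Nonempty) ∧
      ∀ k, IsRieszBasic 𝕜 (2 / 10 ^ 14) 2 (fun i : I k => u i) := by
  obtain ⟨g, hs, hg⟩ := bessel_three (𝕜 := 𝕜) u hunit fun x => by
    simpa only [norm_inner_symm x] using hbessel x
  refine ⟨fun k => Finset.univ.filter fun i => g i = k, fun k l hkl => ?_,
    fun i => ⟨g i, by simp⟩, fun hM k => ?_, fun k => hg k _ (by simp)⟩
  · exact Finset.disjoint_filter.2 fun i _ h1 h2 => hkl (h1.symm.trans h2)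
  · obtain ⟨i, hi⟩ := hs (by simpa using hM) k
    exact ⟨i, by simpa using hi⟩

end Pool.Agent.Results.MP_2fb14c_an.ThreeRiesz
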